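import Pool.Agent.Y325.SC.Tail
import Pool.Agent.Y980.SC.Shift
import Pool.Agent.Y980.SC.Mom
import Pool.Agent.Y980.SC.Low

/-!
# Tails of the condition number of conic programs: assembly
-/

set_option autoImplicit false

open MeasureTheory ProbabilityTheory Set
open scoped ENNReal NNReal

namespace Pool.Agent.Y325.SC

open Pool.Agent.H836R3

/-- the tail bound in the form used below -/
lemma tail' {m n : ℕ} (hm : 1 ≤ m) (hn : 1 ≤ n) {C₁ : Set (Fin m → ℝ)} {C₂ : Set (Fin n → ℝ)}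
    (h1 : IsClosedConvexCone C₁) (h2 : IsClosedConvexCone C₂) (a : Data m n) {σ : ℝ} (hσ : 0 < σ)
    {t : ℝ} (ht : 0 < t) :
    gaussPi a σ {d | ENNReal.ofReal t ≤ condNum C₁ C₂ d} ≤
      ENNReal.ofReal (4608 * ((m : ℝ) * n) ^ 2 * (frob a / σ + Real.sqrt (m * n)) / t) :=
  tail Pool.Agent.Y980.SC.shift hm hn h1 h2 a hσ ht

lemma log_le_twelve : Real.log 9216 + 2 ≤ 12 := by
  have h : Real.log 9216 ≤ Real.log (2 ^ (14 : ℕ)) := Real.log_le_log (by norm_num) (by norm_num)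
  rw [Real.log_pow] at h
  have := Real.log_two_lt_d9
  push_cast at h
  linarith

lemma log_bound {m n : ℕ} (hm : 1 ≤ m) (hn : 1 ≤ n) (a : Data m n) (ha : frob a ≤ 1) {σ : ℝ}
    (hσ : 0 < σ) (hσ1 : σ ≤ 1) :
    1 ≤ 4608 * ((m : ℝ) * n) ^ 2 * (frob a / σ + Real.sqrt (m * n)) ∧
    Real.log (4608 * ((m : ℝ) * n) ^ 2 * (frob a / σ + Real.sqrt (m * n))) + 2 ≤
      12 + 5 / 2 * Real.log (m * n) + Real.log (1 / σ) := by
  have hm1 : (1 : ℝ) ≤ m := by exact_mod_cast hm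
  have hn1 : (1 : ℝ) ≤ n := by exact_mod_cast hn
  have hmn : (1 : ℝ) ≤ (m : ℝ) * n := by nlinarith
  have hs1 : 1 ≤ Real.sqrt (m * n) := by rw [Real.one_le_sqrt]; exact hmn
  have hfa : 0 ≤ frob a / σ := div_nonneg (frob_nonneg a) hσ.le
  have hsq : (1 : ℝ) ≤ ((m : ℝ) * n) ^ 2 := one_le_pow₀ hmn
  have h1 : 1 ≤ 4608 * ((m : ℝ) * n) ^ 2 * (frob a / σ + Real.sqrt (m * n)) := by
    nlinarith [mul_nonneg (by linarith : (0 : ℝ) ≤ ((m : ℝ) * n) ^ 2 - 1)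
      (by linarith : 0 ≤ frob a / σ + Real.sqrt (m * n) - 1)]
  refine ⟨h1, ?_⟩
  have h2 : 4608 * ((m : ℝ) * n) ^ 2 * (frob a / σ + Real.sqrt (m * n)) ≤
      9216 * (((m : ℝ) * n) ^ 2 * Real.sqrt (m * n)) * (1 / σ) := by
    have h3 : frob a / σ ≤ Real.sqrt (m * n) * (1 / σ) := by
      rw [div_eq_mul_one_div]
      exact mul_le_mul_of_nonneg_right (by linarith) (by positivity)
    have h4 : Real.sqrt (m * n) ≤ Real.sqrt (m * n) * (1 / σ) := by
      have : 1 ≤ 1 / σ := by rw [le_div_iff₀ hσ]; linarith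
      nlinarith
    have h5 : 0 ≤ 4608 * ((m : ℝ) * n) ^ 2 := by positivity
    nlinarith [mul_le_mul_of_nonneg_left (add_le_add h3 h4) h5]
  have h6 : Real.log (4608 * ((m : ℝ) * n) ^ 2 * (frob a / σ + Real.sqrt (m * n))) ≤
      Real.log 9216 + 5 / 2 * Real.log (m * n) + Real.log (1 / σ) := by
    refine (Real.log_le_log (by linarith) h2).trans (le_of_eq ?_)
    rw [Real.log_mul (by positivity) (by positivity), Real.log_mul (by norm_num) (by positivity),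
      Real.log_mul (by positivity) (by positivity), Real.log_pow, Real.log_sqrt (by positivity)]
    push_cast
    ring
  have := log_le_twelve
  linarith

theorem expect_le {m n : ℕ} (hm : 1 ≤ m) (hn : 1 ≤ n) {C₁ : Set (Fin m → ℝ)}
    {C₂ : Set (Fin n → ℝ)} (h1 : IsClosedConvexCone C₁) (h2 : IsClosedConvexCone C₂)
    (a : Data m n) {σ : ℝ} (hσ : 0 < σ) (ha : frob a ≤ 1) (hσ1 : σ ≤ 1) :
    ∫⁻ d, (ENNReal.log (condNum C₁ C₂ d)).toENNReal ∂(gaussPi a σ) ≤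
        ENNReal.ofReal (12 + 5 / 2 * Real.log (m * n) + Real.log (1 / σ)) ∧
      expect (gaussPi a σ) (fun d => ENNReal.log (condNum C₁ C₂ d)) ≤
        ((12 + 5 / 2 * Real.log (m * n) + Real.log (1 / σ) : ℝ) : EReal) := by
  have hm1 : (1 : ℝ) ≤ m := by exact_mod_cast hm
  have hn1 : (1 : ℝ) ≤ n := by exact_mod_cast hn
  have hmn : (1 : ℝ) ≤ (m : ℝ) * n := by nlinarith
  obtain ⟨hQ, hlog⟩ := log_bound hm hn a ha hσ hσ1
  have hmain : ∫⁻ d, (ENNReal.log (condNum C₁ C₂ d)).toENNReal ∂(gaussPi a σ) ≤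
      ENNReal.ofReal (12 + 5 / 2 * Real.log (m * n) + Real.log (1 / σ)) :=
    (Pool.Agent.Y980.SC.logm (gaussPi a σ) _ (measurable_condNum h1 h2) hQ
      (fun t ht => tail' hm hn h1 h2 a hσ ht)).trans (ENNReal.ofReal_le_ofReal hlog)
  have hnn : 0 ≤ 12 + 5 / 2 * Real.log (m * n) + Real.log (1 / σ) := by
    have e1 : 0 ≤ Real.log ((m : ℝ) * n) := Real.log_nonneg hmn
    have e2 : 0 ≤ Real.log (1 / σ) := by
      apply Real.log_nonneg
      rw [le_div_iff₀ hσ]; linarith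
    linarith
  refine ⟨hmain, ?_⟩
  unfold expect
  calc _ ≤ ((∫⁻ d, (ENNReal.log (condNum C₁ C₂ d)).toENNReal ∂(gaussPi a σ) : ℝ≥0∞) : EReal) - 0 :=
        EReal.sub_le_sub le_rfl (EReal.coe_ennreal_nonneg _)
    _ = ((∫⁻ d, (ENNReal.log (condNum C₁ C₂ d)).toENNReal ∂(gaussPi a σ) : ℝ≥0∞) : EReal) :=
        sub_zero _
    _ ≤ ((ENNReal.ofReal (12 + 5 / 2 * Real.log (m * n) + Real.log (1 / σ)) : ℝ≥0∞) : EReal) :=
        EReal.coe_ennreal_le_coe_ennreal_iff.2 hmain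
    _ = _ := by
        rw [EReal.coe_ennreal_ofReal, max_eq_left hnn]

lemma twelve_le {m n : ℕ} (hm : 1 ≤ m) (hn : 1 ≤ n) {σ : ℝ} (hσ : 0 < σ) (hσ1 : σ ≤ 1) :
    12 + 5 / 2 * Real.log ((m : ℝ) * n) + Real.log (1 / σ) ≤
      12 * (1 + Real.log ((m : ℝ) * n / σ)) := by
  have hm1 : (1 : ℝ) ≤ m := by exact_mod_cast hm
  have hn1 : (1 : ℝ) ≤ n := by exact_mod_cast hn
  have hmn : (1 : ℝ) ≤ (m : ℝ) * n := by nlinarith
  have e1 : 0 ≤ Real.log ((m : ℝ) * n) := Real.log_nonneg hmn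
  have e2 : 0 ≤ Real.log (1 / σ) := by
    apply Real.log_nonneg
    rw [le_div_iff₀ hσ]; linarith
  have e3 : Real.log ((m : ℝ) * n / σ) = Real.log ((m : ℝ) * n) + Real.log (1 / σ) := by
    rw [div_eq_mul_one_div, Real.log_mul (by positivity) (by positivity)]
  rw [e3]
  linarith

end Pool.Agent.Y325.SC
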