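import Pool.Agent.H836R3.Main

/-!
# Tails of the condition number of conic programs: statements of the parts
-/

set_option autoImplicit false

open MeasureTheory ProbabilityTheory
open scoped ENNReal NNReal

namespace Pool.Agent.Y325.SC

open Pool.Agent.H836R3

/-- far from its centre a product Gaussian is much smaller than the Gaussian of double variance -/
def StmShift : Prop := ∀ {ι : Type} [Fintype ι] (a : ι → ℝ) {σ : ℝ}, 0 < σ → ∀ {R : ℝ}, 0 ≤ R →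
  ∀ {S : Set (ι → ℝ)}, MeasurableSet S → (∀ d ∈ S, R ^ 2 ≤ ∑ k, (d k - a k) ^ 2) →
    gaussPi a σ S ≤ ENNReal.ofReal (Real.sqrt 2 ^ Fintype.card ι * Real.exp (-R ^ 2 / (4 * σ ^ 2))) *
      gaussPi a (Real.sqrt 2 * σ) S

/-- fractional moments from a tail bound -/
def StmMom : Prop := ∀ {Ω : Type} [MeasurableSpace Ω] (μ : Measure Ω) [IsProbabilityMeasure μ]
  (f : Ω → ℝ≥0∞), Measurable f → ∀ {Q : ℝ}, 0 < Q →
    (∀ t : ℝ, 0 < t → μ {ω | ENNReal.ofReal t ≤ f ω} ≤ ENNReal.ofReal (Q / t)) →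
    ∀ {p : ℝ}, 0 < p → p < 1 → ∫⁻ ω, f ω ^ p ∂μ ≤ ENNReal.ofReal (Q ^ p / (1 - p))

/-- the expected logarithm from a tail bound -/
def StmLog : Prop := ∀ {Ω : Type} [MeasurableSpace Ω] (μ : Measure Ω) [IsProbabilityMeasure μ]
  (f : Ω → ℝ≥0∞), Measurable f → ∀ {Q : ℝ}, 1 ≤ Q →
    (∀ t : ℝ, 0 < t → μ {ω | ENNReal.ofReal t ≤ f ω} ≤ ENNReal.ofReal (Q / t)) →
    ∫⁻ ω, (ENNReal.log (f ω)).toENNReal ∂μ ≤ ENNReal.ofReal (Real.log Q + 2)

/-- the data `(A, b, c) = (0, 1, 0)`, `m = n = 1` -/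
noncomputable def a01 : Data 1 1 := fun k => if k = Sum.inr (Sum.inl 0) then 1 else 0

/-- the half-line -/
def half : Set (Fin 1 → ℝ) := {x | 0 ≤ x 0}

/-- a lower bound of the tail for the linear program `A x ≥ b`, `x ≥ 0` -/
def StmLow : Prop := ∃ c : ℝ, 0 < c ∧ ∀ σ : ℝ, 0 < σ → σ ≤ 1 → ∀ t : ℝ, 1 / σ ≤ t →
  ENNReal.ofReal (c / (σ * t)) ≤ gaussPi a01 σ {d | ENNReal.ofReal t ≤ condNum half half d}

/-- the tail of the condition number -/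
def StmTail : Prop := ∀ {m n : ℕ}, 1 ≤ m → 1 ≤ n → ∀ {C₁ : Set (Fin m → ℝ)} {C₂ : Set (Fin n → ℝ)},
  IsClosedConvexCone C₁ → IsClosedConvexCone C₂ → ∀ (a : Data m n) {σ : ℝ}, 0 < σ →
    ∀ {t : ℝ}, 0 < t → gaussPi a σ {d | ENNReal.ofReal t ≤ condNum C₁ C₂ d} ≤
      ENNReal.ofReal (4608 * ((m : ℝ) * n) ^ 2 * (frob a / σ + Real.sqrt (m * n)) / t)

end Pool.Agent.Y325.SC
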