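import Pool.Agent.Y325.SC.Stm

/-!
# The tail of the condition number
-/

set_option autoImplicit false

open MeasureTheory ProbabilityTheory Set
open scoped ENNReal NNReal

namespace Pool.Agent.Y325.SC

open Pool.Agent.H836R3

lemma two_pow_ge (j : ℕ) : (j : ℝ) + 2 ≤ 2 * 2 ^ j := by
  induction j with
  | zero => norm_num
  | succ j ih =>
    push_cast
    rw [pow_succ]
    have : (0 : ℝ) ≤ j := Nat.cast_nonneg j
    linarith

lemma exp_aux (j : ℕ) : ((j : ℝ) + 2) * Real.exp (-(j : ℝ)) ≤ 2 * (3 / 4) ^ j := by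
  have h1 : Real.exp (-(j : ℝ)) = Real.exp (-1) ^ j := by
    rw [← Real.exp_nat_mul]; ring_nf
  have h2 : 2 * Real.exp (-1) ≤ 3 / 4 := by
    rw [Real.exp_neg]
    have h3 := Real.exp_one_gt_d9
    rw [← div_eq_mul_inv, div_le_iff₀ (by linarith)]
    linarith
  calc ((j : ℝ) + 2) * Real.exp (-(j : ℝ)) ≤ 2 * 2 ^ j * Real.exp (-(j : ℝ)) :=
        mul_le_mul_of_nonneg_right (two_pow_ge j) (Real.exp_pos _).le
    _ = 2 * (2 * Real.exp (-1)) ^ j := by rw [h1, mul_pow]; ring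
    _ ≤ 2 * (3 / 4) ^ j := by
        have : (2 * Real.exp (-1)) ^ j ≤ (3 / 4 : ℝ) ^ j :=
          pow_le_pow_left₀ (by positivity) h2 j
        linarith

lemma shell_aux (N : ℕ) (hN : 1 ≤ N) (j : ℕ) :
    Real.sqrt 2 ^ N * Real.exp (-((N : ℝ) * ((j : ℝ) + 1) ^ 2)) ≤ Real.exp (-(j : ℝ)) := by
  have h2 : Real.sqrt 2 ≤ Real.exp 1 := by
    have h3 := Real.exp_one_gt_d9
    have h4 : Real.sqrt 2 ≤ 2 := by
      rw [Real.sqrt_le_left (by norm_num)]; norm_num
    linarith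
  have h5 : Real.sqrt 2 ^ N ≤ Real.exp N := by
    calc Real.sqrt 2 ^ N ≤ Real.exp 1 ^ N := pow_le_pow_left₀ (Real.sqrt_nonneg _) h2 N
      _ = Real.exp N := by rw [← Real.exp_nat_mul]; ring_nf
  calc Real.sqrt 2 ^ N * Real.exp (-((N : ℝ) * ((j : ℝ) + 1) ^ 2))
      ≤ Real.exp N * Real.exp (-((N : ℝ) * ((j : ℝ) + 1) ^ 2)) :=
        mul_le_mul_of_nonneg_right h5 (Real.exp_pos _).le
    _ = Real.exp (N - (N : ℝ) * ((j : ℝ) + 1) ^ 2) := by rw [← Real.exp_add]; ring_nf
    _ ≤ Real.exp (-(j : ℝ)) := by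
        apply Real.exp_le_exp.2
        have hj : (0 : ℝ) ≤ j := Nat.cast_nonneg j
        have hN1 : (1 : ℝ) ≤ N := by exact_mod_cast hN
        nlinarith [mul_nonneg hj (by linarith : (0 : ℝ) ≤ N - 1), mul_nonneg (by linarith : (0 : ℝ) ≤ N) (mul_nonneg hj hj)]

lemma sum_shells {Ω : Type} [MeasurableSpace Ω] (μ : Measure Ω) (E : ℕ → Set Ω) {A : ℝ}
    (hA0 : 0 ≤ A) (hE0 : μ (E 0) ≤ ENNReal.ofReal A)
    (hEk : ∀ j : ℕ, μ (E (j + 1)) ≤ ENNReal.ofReal (2 * A * (3 / 4) ^ j)) :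
    μ (⋃ k, E k) ≤ ENNReal.ofReal (9 * A) := by
  have hs : Summable fun j : ℕ => 2 * A * (3 / 4 : ℝ) ^ j :=
    (summable_geometric_of_lt_one (by norm_num) (by norm_num)).mul_left _
  have h1 : ∑' j : ℕ, ENNReal.ofReal (2 * A * (3 / 4) ^ j) = ENNReal.ofReal (8 * A) := by
    rw [← ENNReal.ofReal_tsum_of_nonneg (fun k => by positivity) hs, tsum_mul_left,
      tsum_geometric_of_lt_one (by norm_num) (by norm_num)]
    congr 1
    ring
  have h2 : ∑' k, μ (E k) = μ (E 0) + ∑' j, μ (E (j + 1)) :=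
    tsum_eq_zero_add' ENNReal.summable
  calc μ (⋃ k, E k) ≤ ∑' k, μ (E k) := measure_iUnion_le _
    _ = μ (E 0) + ∑' j, μ (E (j + 1)) := h2
    _ ≤ ENNReal.ofReal A + ∑' j : ℕ, ENNReal.ofReal (2 * A * (3 / 4) ^ j) :=
        add_le_add hE0 (ENNReal.tsum_le_tsum hEk)
    _ = ENNReal.ofReal (9 * A) := by
        rw [h1, ← ENNReal.ofReal_add hA0 (by positivity)]
        congr 1
        ring

theorem tail (hsh : StmShift) : StmTail := by
  intro m n hm hn C₁ C₂ h1 h2 a σ hσ t ht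
  have hm1 : (1 : ℝ) ≤ m := by exact_mod_cast hm
  have hn1 : (1 : ℝ) ≤ n := by exact_mod_cast hn
  have hmn : (1 : ℝ) ≤ (m : ℝ) * n := by nlinarith
  set N : ℕ := Fintype.card ((Fin m × Fin n) ⊕ (Fin m ⊕ Fin n)) with hNdef
  have hNr : (N : ℝ) = m * n + (m + n) := by rw [hNdef]; simp
  have hN1 : 1 ≤ N := by
    have : (1 : ℝ) ≤ N := by rw [hNr]; nlinarith
    exact_mod_cast this
  have hN0 : (0 : ℝ) < N := by exact_mod_cast hN1
  set b : ℝ := frob a with hb
  have hb0 : 0 ≤ b := frob_nonneg a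
  set w : ℝ := 2 * σ * Real.sqrt N with hw
  have hw0 : 0 < w := by
    have := Real.sqrt_pos.2 hN0
    positivity
  have hwsq : w ^ 2 = 4 * σ ^ 2 * N := by
    rw [hw, mul_pow, mul_pow, Real.sq_sqrt hN0.le]; ring
  set M : ℝ := 128 * ((m : ℝ) * n) ^ 2 with hM
  have hM0 : 0 < M := by positivity
  have hrm : Measurable (rho C₁ C₂ : Data m n → ℝ≥0∞) := measurable_rho h1 h2
  let E : ℕ → Set (Data m n) := fun k =>
    {d | (w * k) ^ 2 ≤ ∑ i, (d i - a i) ^ 2} ∩ {d | rho C₁ C₂ d < ENNReal.ofReal ((b + w * (k + 1)) / t)}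
  have hcov : {d : Data m n | ENNReal.ofReal t ≤ condNum C₁ C₂ d} ⊆ ⋃ k, E k := by
    intro d hd
    have hd' : ENNReal.ofReal t ≤ condNum C₁ C₂ d := hd
    set z : ℝ := frob (d - a) with hz
    have hz0 : 0 ≤ z := frob_nonneg _
    refine mem_iUnion.2 ⟨⌊z / w⌋₊, ?_, ?_⟩
    · have hle : w * (⌊z / w⌋₊ : ℝ) ≤ z := by
        have := Nat.floor_le (div_nonneg hz0 hw0.le)
        rw [le_div_iff₀ hw0] at this
        linarith
      have hsq : z ^ 2 = ∑ i, (d i - a i) ^ 2 := by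
        rw [hz, frob_sq]; rfl
      change (w * (⌊z / w⌋₊ : ℝ)) ^ 2 ≤ ∑ i, (d i - a i) ^ 2
      rw [← hsq]
      exact pow_le_pow_left₀ (by positivity) hle 2
    · have hlt : z < w * ((⌊z / w⌋₊ : ℝ) + 1) := by
        have := Nat.lt_floor_add_one (z / w)
        rw [div_lt_iff₀ hw0] at this
        linarith
      have hfd : frob d ≤ b + z := by
        have := frob_add_le a (d - a)
        rwa [add_sub_cancel] at this
      have hpos : 0 < (b + w * ((⌊z / w⌋₊ : ℝ) + 1)) / t := by positivity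
      change rho C₁ C₂ d < ENNReal.ofReal ((b + w * ((⌊z / w⌋₊ : ℝ) + 1)) / t)
      unfold condNum at hd'
      split_ifs at hd' with h0
      · rw [h0]
        exact ENNReal.ofReal_pos.2 hpos
      · have hmul : ENNReal.ofReal t * rho C₁ C₂ d ≤ ENNReal.ofReal (frob d) :=
          ENNReal.mul_le_of_le_div hd'
        have hle : rho C₁ C₂ d ≤ ENNReal.ofReal (frob d) / ENNReal.ofReal t := by
          rw [ENNReal.le_div_iff_mul_le (Or.inl (ENNReal.ofReal_pos.2 ht).ne')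
            (Or.inl ENNReal.ofReal_ne_top), mul_comm]
          exact hmul
        rw [← ENNReal.ofReal_div_of_pos ht] at hle
        refine lt_of_le_of_lt hle ?_
        apply (ENNReal.ofReal_lt_ofReal_iff hpos).2
        exact (div_lt_div_iff_of_pos_right ht).2 (by linarith)
  set A : ℝ := M * ((b + w) / t) / σ with hA
  have hA0 : 0 ≤ A := by positivity
  have hE0 : gaussPi a σ (E 0) ≤ ENNReal.ofReal A := by
    refine (measure_mono inter_subset_right).trans ?_
    have := rho_tail hm hn h1 h2 a hσ (t := (b + w * ((0 : ℕ) + 1)) / t) (by positivity)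
    refine this.trans (le_of_eq ?_)
    congr 1
    rw [hA, hM]
    simp
  have hEk : ∀ j : ℕ, gaussPi a σ (E (j + 1)) ≤ ENNReal.ofReal (2 * A * (3 / 4) ^ j) := by
    intro j
    have hs2 : (0 : ℝ) < Real.sqrt 2 := by positivity
    have hEm : MeasurableSet (E (j + 1)) := by
      apply MeasurableSet.inter
      · apply measurableSet_le measurable_const
        fun_prop
      · exact measurableSet_lt hrm measurable_const
    have hj : (0 : ℝ) ≤ j := Nat.cast_nonneg j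
    have hR0 : 0 ≤ w * ((j + 1 : ℕ) : ℝ) := by positivity
    refine (hsh a hσ hR0 hEm (fun d hd => hd.1)).trans ?_
    have ht2 : gaussPi a (Real.sqrt 2 * σ) (E (j + 1)) ≤
        ENNReal.ofReal (M * ((b + w * (((j + 1 : ℕ) : ℝ) + 1)) / t) / (Real.sqrt 2 * σ)) := by
      refine (measure_mono inter_subset_right).trans ?_
      exact rho_tail hm hn h1 h2 a (by positivity) (by positivity)
    refine (mul_le_mul_right ht2 _).trans ?_
    rw [← ENNReal.ofReal_mul (by positivity)]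
    apply ENNReal.ofReal_le_ofReal
    have e1 : Real.exp (-(w * ((j + 1 : ℕ) : ℝ)) ^ 2 / (4 * σ ^ 2)) =
        Real.exp (-((N : ℝ) * ((j : ℝ) + 1) ^ 2)) := by
      congr 1
      have : -(w * ((j + 1 : ℕ) : ℝ)) ^ 2 = -(4 * σ ^ 2 * N * ((j : ℝ) + 1) ^ 2) := by
        rw [← hwsq]; push_cast; ring
      rw [this]
      field_simp
    rw [e1]
    have e2 : Real.sqrt 2 ^ N * Real.exp (-((N : ℝ) * ((j : ℝ) + 1) ^ 2)) ≤ Real.exp (-(j : ℝ)) :=
      shell_aux N hN1 j
    have e3 : M * ((b + w * (((j + 1 : ℕ) : ℝ) + 1)) / t) / (Real.sqrt 2 * σ) ≤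
        ((j : ℝ) + 2) * A := by
      have h3 : b + w * (((j + 1 : ℕ) : ℝ) + 1) ≤ ((j : ℝ) + 2) * (b + w) := by
        push_cast
        nlinarith [mul_nonneg hj hb0]
      have h4 : σ ≤ Real.sqrt 2 * σ := by
        have : 1 ≤ Real.sqrt 2 := by
          rw [Real.one_le_sqrt]; norm_num
        nlinarith
      calc M * ((b + w * (((j + 1 : ℕ) : ℝ) + 1)) / t) / (Real.sqrt 2 * σ)
          ≤ M * ((((j : ℝ) + 2) * (b + w)) / t) / σ := by
            apply div_le_div₀ (by positivity) _ hσ h4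
            apply mul_le_mul_of_nonneg_left _ hM0.le
            exact div_le_div_of_nonneg_right h3 ht.le
        _ = ((j : ℝ) + 2) * A := by rw [hA]; ring
    calc _ ≤ Real.exp (-(j : ℝ)) * (((j : ℝ) + 2) * A) :=
          mul_le_mul e2 e3 (by positivity) (Real.exp_pos _).le
      _ = (((j : ℝ) + 2) * Real.exp (-(j : ℝ))) * A := by ring
      _ ≤ (2 * (3 / 4) ^ j) * A := mul_le_mul_of_nonneg_right (exp_aux j) hA0
      _ = _ := by ring
  calc gaussPi a σ {d | ENNReal.ofReal t ≤ condNum C₁ C₂ d} ≤ gaussPi a σ (⋃ k, E k) :=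
        measure_mono hcov
    _ ≤ ENNReal.ofReal (9 * A) := sum_shells _ E hA0 hE0 hEk
    _ ≤ _ := by
        apply ENNReal.ofReal_le_ofReal
        have hsN : Real.sqrt N ≤ 2 * Real.sqrt (m * n) := by
          have h5 : (N : ℝ) ≤ 2 ^ 2 * (m * n) := by rw [hNr]; nlinarith
          calc Real.sqrt N ≤ Real.sqrt (2 ^ 2 * (m * n)) := Real.sqrt_le_sqrt h5
            _ = 2 * Real.sqrt (m * n) := by
                rw [Real.sqrt_mul (by norm_num), Real.sqrt_sq (by norm_num)]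
        have h6 : 9 * A = 1152 * ((m : ℝ) * n) ^ 2 * (b / σ + 2 * Real.sqrt N) / t := by
          rw [hA, hM, hw]
          field_simp
          ring
        rw [h6]
        apply div_le_div_of_nonneg_right _ ht.le
        have h7 : b / σ + 2 * Real.sqrt N ≤ 4 * (b / σ + Real.sqrt (m * n)) := by
          have : 0 ≤ b / σ := by positivity
          linarith
        have h8 : 0 ≤ 1152 * ((m : ℝ) * n) ^ 2 := by positivity
        nlinarith [mul_le_mul_of_nonneg_left h7 h8]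

end Pool.Agent.Y325.SC
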